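import Pool.Agent.N110.PA.Stm
import Pool.Agent.N110.NV.Cl
import Pool.Agent.N110.NV.Lim

/-!
Degrees of isomorphisms in codimension one are comparable to integral matrices (MAT of project PA).
-/

set_option autoImplicit false
set_option linter.unusedSectionVars false
set_option linter.unusedVariables false

open FF Pool.Agent.W602.GT Pool.Agent.Y172 Pool.Agent.R887

namespace Pool.Agent.N492.PA

open Pool.Agent.N110 Pool.Agent.N110.PA Pool.Agent.N110.NV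

noncomputable section

section

variable {K : Type} [Field K] [Algebra ℂ K] {N n : ℕ} {y : Fin (N + 1) → K} {ρ : ℕ}
  {c : Place ℂ K → Fin ρ → ℤ}

/-- the prime divisors -/
abbrev QQ (y : Fin (N + 1) → K) : Type := {P : Place ℂ K // IsPrimeDivisor y P}

/-- the classes with rational coordinates -/
def cQ (c : Place ℂ K → Fin ρ → ℤ) : Place ℂ K → Fin ρ → ℚ := fun P i => (c P i : ℚ)

open Classical in
/-- a divisor as a function on all places -/
def dv (D : QQ y →₀ ℤ) (P : Place ℂ K) : ℚ := if h : IsPrimeDivisor y P then (D ⟨P, h⟩ : ℚ) else 0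

lemma dv_apply (D : QQ y →₀ ℤ) {P : Place ℂ K} (h : IsPrimeDivisor y P) :
    dv D P = (D ⟨P, h⟩ : ℚ) := dif_pos h

lemma dv_fin (D : QQ y →₀ ℤ) : Fin0 y (dv D) := by
  refine ((D.support.finite_toSet).image Subtype.val).subset ?_
  rintro P ⟨hP, h0⟩
  refine ⟨⟨P, hP⟩, ?_, rfl⟩
  rw [Finset.mem_coe, Finsupp.mem_support_iff]
  intro h1
  apply h0
  show dv D P = 0
  rw [dv_apply D hP, h1, Int.cast_zero]

/-- the class -/
def ic (c : Place ℂ K → Fin ρ → ℤ) (D : QQ y →₀ ℤ) : Fin ρ → ℤ := D.sum fun P a => a • c P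

lemma cls_dv (c : Place ℂ K → Fin ρ → ℤ) (D : QQ y →₀ ℤ) (i : Fin ρ) :
    cls y (cQ c) (dv D) i = (ic c D i : ℚ) := by
  classical
  have hT : ∀ P ∈ D.support.map (Function.Embedding.subtype _), IsPrimeDivisor y P := by
    intro P hP
    rw [Finset.mem_map] at hP
    obtain ⟨Q, -, rfl⟩ := hP
    exact Q.2
  have hD : ∀ P, IsPrimeDivisor y P → P ∉ D.support.map (Function.Embedding.subtype _) →
      dv D P = 0 := by
    intro P hP h1
    by_contra h2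
    apply h1
    rw [Finset.mem_map]
    refine ⟨⟨P, hP⟩, ?_, rfl⟩
    rw [Finsupp.mem_support_iff]
    intro h3
    apply h2
    rw [dv_apply D hP, h3, Int.cast_zero]
  rw [cls_finset hT hD, Finset.sum_map, Finset.sum_apply, ic, Finsupp.sum, Finset.sum_apply]
  push_cast
  refine Finset.sum_congr rfl fun P _ => ?_
  show dv D P.1 * (c P.1 i : ℚ) = _
  rw [dv_apply D P.2]
  simp

variable {r : ℕ} {φ : (Fin r → ℤ) → (K ≃ₐ[ℂ] K)}

lemma phi_zero (h : ∀ u v, φ (u + v) = φ u * φ v) : φ 0 = 1 := by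
  have h1 : φ 0 * φ 0 = φ 0 * 1 := by rw [← h, add_zero, mul_one]
  exact mul_left_cancel h1

lemma comap_mul (a b : K ≃ₐ[ℂ] K) (P : Place ℂ K) : comap (a * b) P = comap b (comap a P) := by
  apply Place.ext
  rfl

lemma comap_one (P : Place ℂ K) : comap (1 : K ≃ₐ[ℂ] K) P = P := by
  apply Place.ext
  rfl

lemma comap_neg (h : ∀ u v, φ (u + v) = φ u * φ v) (v : Fin r → ℤ) (P : Place ℂ K) :
    comap (φ v) (comap (φ (-v)) P) = P := by
  rw [← comap_mul, ← h, neg_add_cancel, phi_zero h, comap_one]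

lemma comap_neg' (h : ∀ u v, φ (u + v) = φ u * φ v) (v : Fin r → ℤ) (P : Place ℂ K) :
    comap (φ (-v)) (comap (φ v) P) = P := by
  rw [← comap_mul, ← h, add_neg_cancel, phi_zero h, comap_one]

/-- the permutation of the prime divisors -/
def pim (h : ∀ u v, φ (u + v) = φ u * φ v) (hps : ∀ v, PseudoAut (φ v) y) (v : Fin r → ℤ) :
    Equiv.Perm (QQ y) where
  toFun P := ⟨comap (φ (-v)) P.1, (hps (-v) _ _ fun _ => rfl).2 P.2⟩
  invFun P := ⟨comap (φ v) P.1, (hps v _ _ fun _ => rfl).2 P.2⟩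
  left_inv P := Subtype.ext (comap_neg h v P.1)
  right_inv P := Subtype.ext (comap_neg' h v P.1)

lemma pim_add (h : ∀ u v, φ (u + v) = φ u * φ v) (hps : ∀ v, PseudoAut (φ v) y)
    (u v : Fin r → ℤ) : pim h hps (u + v) = pim h hps u * pim h hps v := by
  refine Equiv.ext fun P => Subtype.ext ?_
  show comap (φ (-(u + v))) P.1 = comap (φ (-u)) (comap (φ (-v)) P.1)
  rw [← comap_mul, ← h, neg_add_rev]

lemma dv_map (h : ∀ u v, φ (u + v) = φ u * φ v) (hps : ∀ v, PseudoAut (φ v) y)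
    (v : Fin r → ℤ) (D : QQ y →₀ ℤ) {P : Place ℂ K} (hP : IsPrimeDivisor y P) :
    dv (D.mapDomain (pim h hps v)) P = dv D (comap (φ v) P) := by
  have hP' : IsPrimeDivisor y (comap (φ v) P) := (hps v _ _ fun _ => rfl).2 hP
  rw [dv_apply _ hP, dv_apply _ hP', Finsupp.mapDomain_equiv_apply]
  rfl

lemma ic_map (h : ∀ u v, φ (u + v) = φ u * φ v) (hps : ∀ v, PseudoAut (φ v) y)
    (c : Place ℂ K → Fin ρ → ℤ) (v : Fin r → ℤ) (D : QQ y →₀ ℤ) :
    ic c (D.mapDomain (pim h hps v)) = D.sum fun P a => a • c (pim h hps v P) := by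
  rw [ic, Finsupp.sum_mapDomain_index]
  · intro b
    rw [zero_smul]
  · intro b m₁ m₂
    rw [add_smul]

lemma kern (h : ∀ u v, φ (u + v) = φ u * φ v) (hps : ∀ v, PseudoAut (φ v) y)
    (hc : FiniteClasses y (cQ c)) (v : Fin r → ℤ) (D : QQ y →₀ ℤ)
    (h0 : (D.sum fun P a => a • c P) = 0) : (D.sum fun P a => a • c (pim h hps v P)) = 0 := by
  rw [← ic_map h hps c]
  have h1 : cls y (cQ c) (dv D) = 0 := by
    funext i
    rw [cls_dv, ic, h0]
    simp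
  obtain ⟨m, hm, f, hf, hfo⟩ := hc.torsion _ (dv_fin D) h1
  have h2 := hc.principal (φ v f) (by rwa [Ne, map_eq_zero])
  have h3 : cls y (cQ c) (fun P => ((P.ord (φ v f) : ℤ) : ℚ)) =
      (m : ℚ) • cls y (cQ c) (dv (D.mapDomain (pim h hps v))) := by
    rw [← cls_smul]
    refine cls_congr fun P hP => ?_
    rw [dv_map h hps v D hP, ← hfo (comap (φ v) P) ((hps v _ _ fun _ => rfl).2 hP)]
    rfl
  rw [h3] at h2
  have hm0 : (m : ℚ) ≠ 0 := by
    have : m ≠ 0 := by omega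
    exact_mod_cast this
  have h4 := (smul_eq_zero.1 h2).resolve_left hm0
  funext i
  have h5 := congrFun h4 i
  rw [cls_dv] at h5
  have h6 : ((ic c (Finsupp.mapDomain (pim h hps v) D) i : ℤ) : ℚ) = 0 := h5
  show ic c (Finsupp.mapDomain (pim h hps v) D) i = 0
  exact_mod_cast h6

open scoped Classical in
lemma single_eff (P0 : QQ y) : Effective y (fun P => if P = P0.1 then (1 : ℚ) else 0) :=
  ⟨fun P _ => by
    show (0 : ℚ) ≤ if P = P0.1 then (1 : ℚ) else 0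
    split_ifs <;> norm_num, fin_single _ _⟩

open scoped Classical in
lemma dom (hy : NormalModel y) {i : Fin (N + 1)} (hi : y i ≠ 0) {Hy : Place ℂ K → ℚ}
    (hHe : Effective y Hy)
    (hH : ∀ P l, IsPrimeDivisor y P → Centred y l P → Hy P = P.ord (y i / y l)) (P0 : QQ y) :
    ∃ (g : K) (s : ℕ), g ≠ 0 ∧ ∀ P, IsPrimeDivisor y P →
      (if P = P0.1 then (1 : ℚ) else 0) ≤ P.ord g + s * Hy P :=
  dominate hy (single_eff P0) hi hHe hH

lemma lower (hLow : S_Low) (hy : NormalModel y) (hn : Algebra.trdeg ℂ K = n) (h0 : 0 < n)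
    {i : Fin (N + 1)} (hi : y i ≠ 0) {Hy : Place ℂ K → ℚ} (hHe : Effective y Hy)
    (hH : ∀ P l, IsPrimeDivisor y P → Centred y l P → Hy P = P.ord (y i / y l))
    (hc : FiniteClasses y (cQ c)) (h : ∀ u v, φ (u + v) = φ u * φ v)
    (hps : ∀ v, PseudoAut (φ v) y) (P0 : QQ y) :
    ∃ C : ℝ, 0 ≤ C ∧ ∀ v (D : ℕ), mixedDegree (φ v) y n 1 ≤ D →
      ∑ j, |((c (pim h hps v P0).1 j : ℤ) : ℝ)| ≤ C * D := by
  classical
  obtain ⟨g, s, hg, hgs⟩ := dom hy hi hHe hH P0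
  obtain ⟨c0, hc0, hcb⟩ := salient_bound (closure (effSet y (cQ c))) isClosed_closure
    (fun x hx r hr => clo_smul hx hr) (fun x hx hx' => hc.salient x hx hx')
  refine ⟨ρ * (s * ‖toR (cls y (cQ c) Hy)‖ / c0), by positivity, fun v D hD => ?_⟩
  obtain ⟨f, hf0, hf⟩ := hLow K N n y hy hn h0 i hi Hy hH (φ v) (hps v) D hD
  obtain ⟨P1, hP1⟩ : ∃ P1 : QQ y, P1 = pim h hps v P0 := ⟨_, rfl⟩
  have hP1' : P1.1 = comap (φ (-v)) P0.1 := by rw [hP1]; rfl
  rw [← hP1]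
  have hφg : φ v g ≠ 0 := by rwa [Ne, map_eq_zero]
  have hfs : f ^ s ≠ 0 := pow_ne_zero _ hf0
  obtain ⟨E, hE⟩ : ∃ E : Place ℂ K → ℚ, E = fun P => (((P.ord (φ v g * f ^ s) : ℤ) : ℚ) +
    (s * D : ℚ) * Hy P) - (if P = P1.1 then (1 : ℚ) else 0) := ⟨_, rfl⟩
  have hfin1 : Fin0 y (fun P => ((P.ord (φ v g * f ^ s) : ℤ) : ℚ)) := by
    refine (finite_ord hy (mul_ne_zero hφg hfs)).subset ?_
    rintro P ⟨hP, h1⟩
    refine ⟨hP, fun h2 => h1 ?_⟩
    show ((P.ord (φ v g * f ^ s) : ℤ) : ℚ) = 0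
    rw [h2, Int.cast_zero]
  have hfin2 : Fin0 y (fun P => (s * D : ℚ) * Hy P) := Fin0.smul (y := y) hHe.2 _
  have hEeff : Effective y E := by
    constructor
    · intro P hP
      have e1 := hgs (comap (φ v) P) ((hps v _ _ fun _ => rfl).2 hP)
      have e2 := hf P hP
      have e3 : (comap (φ v) P = P0.1) ↔ (P = P1.1) := by
        rw [hP1']
        constructor
        · intro h1
          rw [← h1, comap_neg' h]
        · intro h1
          rw [h1, comap_neg h]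
      have e4 : P.ord (φ v g * f ^ s) = P.ord (φ v g) + s * P.ord f := by
        rw [P.ord_mul hφg hfs, P.ord_pow]
      rw [comap_ord] at e1
      simp only [e3] at e1
      rw [hE]
      simp only
      rw [e4]
      push_cast
      have e5 : (s : ℚ) * Hy (comap (φ v) P) ≤ s * (P.ord f + D * Hy P) :=
        mul_le_mul_of_nonneg_left e2 (Nat.cast_nonneg _)
      linarith
    · rw [hE]
      exact Fin0.sub (Fin0.add hfin1 hfin2) (fin_single _ _)
  have hclsE : cls y (cQ c) E = (s * D : ℚ) • cls y (cQ c) Hy - cQ c P1.1 := by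
    rw [hE, cls_sub (Fin0.add hfin1 hfin2) (fin_single _ _), cls_add hfin1 hfin2,
      hc.principal _ (mul_ne_zero hφg hfs), cls_smul, cls_single P1.2, zero_add, one_smul]
  have hx : toR (cQ c P1.1) ∈ closure (effSet y (cQ c)) := by
    refine subset_closure ?_
    have h1 := eff_mem (c := cQ c) (single_eff P1)
    rwa [cls_single P1.2, one_smul] at h1
  have h3 := hcb _ hx _ (subset_closure (eff_mem (c := cQ c) hEeff))
  rw [← toR_add, hclsE, add_sub_cancel, toR_smul, norm_smul] at h3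
  have h4 : ‖(((s * D : ℚ)) : ℝ)‖ = s * D := by
    rw [Real.norm_of_nonneg (by positivity)]
    push_cast
    rfl
  rw [h4] at h3
  have h5 : ∀ j, |((c P1.1 j : ℤ) : ℝ)| ≤ s * ‖toR (cls y (cQ c) Hy)‖ / c0 * D := by
    intro j
    have h6 := norm_le_pi_norm (toR (cQ c P1.1)) j
    have h7 : ‖toR (cQ c P1.1) j‖ = |((c P1.1 j : ℤ) : ℝ)| := by
      rw [Real.norm_eq_abs]
      congr 1
    rw [h7] at h6
    refine h6.trans ?_
    rw [div_mul_eq_mul_div, le_div_iff₀ hc0]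
    linarith
  refine (Finset.sum_le_sum fun j _ => h5 j).trans (le_of_eq ?_)
  rw [Finset.sum_const, Finset.card_univ, Fintype.card_fin, nsmul_eq_mul]
  ring

lemma hyfin {i : Fin (N + 1)} {Hy : Place ℂ K → ℚ} (hy : NormalModel y) (hHe : Effective y Hy)
    (hH : ∀ P l, IsPrimeDivisor y P → Centred y l P → Hy P = P.ord (y i / y l)) :
    ∃ HF : QQ y →₀ ℤ, ∀ P, IsPrimeDivisor y P → Hy P = dv HF P := by
  have hfin : (Function.support fun P : QQ y => ⌊Hy P.1⌋).Finite := by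
    refine (Set.Finite.preimage (f := fun P : QQ y => P.1) (Subtype.val_injective.injOn)
      hHe.2).subset ?_
    intro P hP
    refine ⟨P.2, fun h0 => hP ?_⟩
    show ⌊Hy P.1⌋ = 0
    rw [h0, Int.floor_zero]
  refine ⟨Finsupp.ofSupportFinite _ hfin, fun P hP => ?_⟩
  rw [dv_apply _ hP]
  show Hy P = ((⌊Hy P⌋ : ℤ) : ℚ)
  obtain ⟨l, hl⟩ := exists_centred hy P
  rw [hH P l hP hl, Int.floor_intCast]


lemma upper (hUp : S_Up) (hy : NormalModel y) (hn : Algebra.trdeg ℂ K = n) (h0 : 0 < n)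
    {i : Fin (N + 1)} (hi : y i ≠ 0) {Hy : Place ℂ K → ℚ} (hHe : Effective y Hy)
    (hH : ∀ P l, IsPrimeDivisor y P → Centred y l P → Hy P = P.ord (y i / y l))
    (hc : FiniteClasses y (cQ c)) (h : ∀ u v, φ (u + v) = φ u * φ v)
    (hps : ∀ v, PseudoAut (φ v) y) {ρ' : ℕ} {M : (Fin r → ℤ) → Matrix (Fin ρ') (Fin ρ') ℤ}
    {F : Finset (QQ y)} {C0 : ℝ} (hC0 : 0 < C0)
    (h4 : ∀ P : QQ y, ∃ C' : ℝ, ∀ v j, |(c (pim h hps v P).1 j : ℝ)| ≤
      C' * ∑ i, ∑ j, |(M v i j : ℝ)|)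
    (h5 : ∀ D : QQ y →₀ ℤ, ∃ x : QQ y → ℤ, (D.sum fun P a => a • c P.1) = ∑ P ∈ F, x P • c P.1 ∧
      ∑ P ∈ F, |(x P : ℝ)| ≤ C0 * ∑ i, |((D.sum fun P a => a • c P.1) i : ℝ)|) :
    ∃ C : ℝ, 0 ≤ C ∧ ∀ v, mixedDegree (φ v) y n 1 ≤
      ENNReal.ofReal (C * ∑ i, ∑ j, |(M v i j : ℝ)|) := by
  classical
  obtain ⟨CU, hCU, hU⟩ := hUp K N n y hy hn h0 i hi Hy hH
  obtain ⟨HF, hHF⟩ := hyfin hy hHe hH
  choose g s hg hgs using fun P0 : QQ y => dom hy hi hHe hH P0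
  choose C' hC' using h4
  obtain ⟨C1, hC1⟩ : ∃ C1 : ℝ, C1 = ∑ P ∈ HF.support, |(HF P : ℝ)| * |C' P| := ⟨_, rfl⟩
  have hC1' : 0 ≤ C1 := by
    rw [hC1]
    exact Finset.sum_nonneg fun _ _ => by positivity
  obtain ⟨C2, hC2⟩ : ∃ C2 : ℝ, C2 = (∑ P ∈ F, (s P : ℝ)) * (C0 * (ρ * C1)) := ⟨_, rfl⟩
  have hs0 : 0 ≤ ∑ P ∈ F, (s P : ℝ) := Finset.sum_nonneg fun _ _ => Nat.cast_nonneg _
  have hC2' : 0 ≤ C2 := by
    rw [hC2]
    positivity
  refine ⟨CU * C2, by positivity, fun v => ?_⟩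
  obtain ⟨m, hm⟩ : ∃ m : ℝ, m = ∑ i, ∑ j, |(M v i j : ℝ)| := ⟨_, rfl⟩
  rw [← hm]
  have hm0 : 0 ≤ m := by
    rw [hm]
    exact Finset.sum_nonneg fun _ _ => Finset.sum_nonneg fun _ _ => abs_nonneg _
  obtain ⟨D, hD⟩ : ∃ D : QQ y →₀ ℤ, D = HF.mapDomain (pim h hps v) := ⟨_, rfl⟩
  have hx0 : ∀ j, |((ic c D j : ℤ) : ℝ)| ≤ C1 * m := by
    intro j
    rw [hD, ic_map, Finsupp.sum, Finset.sum_apply]
    push_cast
    refine (Finset.abs_sum_le_sum_abs _ _).trans ?_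
    rw [hC1, Finset.sum_mul]
    refine Finset.sum_le_sum fun P _ => ?_
    rw [Pi.smul_apply, smul_eq_mul]
    push_cast
    rw [abs_mul, mul_assoc]
    refine mul_le_mul_of_nonneg_left ?_ (abs_nonneg _)
    refine (hC' P v j).trans ?_
    rw [← hm]
    exact mul_le_mul_of_nonneg_right (le_abs_self _) hm0
  obtain ⟨x, hx, hxb⟩ := h5 D
  have hx1 : ic c D = ∑ P ∈ F, x P • c P.1 := hx
  have hxb1 : ∑ P ∈ F, |(x P : ℝ)| ≤ C0 * (ρ * (C1 * m)) := by
    refine hxb.trans (mul_le_mul_of_nonneg_left ?_ hC0.le)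
    refine (Finset.sum_le_sum fun j _ => hx0 j).trans (le_of_eq ?_)
    rw [Finset.sum_const, Finset.card_univ, Fintype.card_fin, nsmul_eq_mul]
  obtain ⟨B, hB⟩ : ∃ B : ℕ, B = ∑ P ∈ F, (x P).natAbs * s P := ⟨_, rfl⟩
  have hBr : (B : ℝ) ≤ C2 * m := by
    have e1 : (B : ℝ) = ∑ P ∈ F, |(x P : ℝ)| * s P := by
      rw [hB]
      push_cast
      refine Finset.sum_congr rfl fun P _ => ?_
      rw [Nat.cast_natAbs]
      push_cast
      rfl
    rw [e1]
    calc ∑ P ∈ F, |(x P : ℝ)| * s P ≤ ∑ P ∈ F, |(x P : ℝ)| * ∑ Q ∈ F, (s Q : ℝ) :=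
          Finset.sum_le_sum fun P hP => mul_le_mul_of_nonneg_left
            (Finset.single_le_sum (f := fun Q => (s Q : ℝ)) (fun _ _ => Nat.cast_nonneg _) hP)
            (abs_nonneg _)
      _ = (∑ P ∈ F, |(x P : ℝ)|) * ∑ Q ∈ F, (s Q : ℝ) := by rw [Finset.sum_mul]
      _ ≤ (C0 * (ρ * (C1 * m))) * ∑ Q ∈ F, (s Q : ℝ) := mul_le_mul_of_nonneg_right hxb1 hs0
      _ = C2 * m := by rw [hC2]; ring
  have hBq : (B : ℚ) = ∑ P ∈ F, |(x P : ℚ)| * s P := by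
    rw [hB]
    push_cast
    refine Finset.sum_congr rfl fun P _ => ?_
    rw [Nat.cast_natAbs]
    push_cast
    rfl
  -- the divisors
  have hHfin : Fin0 y Hy := hHe.2
  have hgfin : ∀ Q : QQ y, Fin0 y (fun P => ((P.ord (g Q) : ℤ) : ℚ)) := by
    intro Q
    refine (finite_ord hy (hg Q)).subset ?_
    rintro P ⟨hP, h1⟩
    refine ⟨hP, fun h2 => h1 ?_⟩
    show ((P.ord (g Q) : ℤ) : ℚ) = 0
    rw [h2, Int.cast_zero]
  obtain ⟨G, hG⟩ : ∃ G : QQ y → Place ℂ K → ℚ, G = fun Q P =>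
    |(x Q : ℚ)| * (((P.ord (g Q) : ℤ) : ℚ) + (s Q : ℚ) * Hy P) -
      (x Q : ℚ) * (if P = Q.1 then (1 : ℚ) else 0) := ⟨_, rfl⟩
  have hGfin1 : ∀ Q : QQ y, Fin0 y (fun P => ((P.ord (g Q) : ℤ) : ℚ) + (s Q : ℚ) * Hy P) :=
    fun Q => Fin0.add (hgfin Q) (Fin0.smul hHfin _)
  have hGfin2 : ∀ Q : QQ y, Fin0 y (fun P => |(x Q : ℚ)| * (((P.ord (g Q) : ℤ) : ℚ) +
      (s Q : ℚ) * Hy P)) := fun Q => Fin0.smul (hGfin1 Q) _
  have hGfin3 : ∀ Q : QQ y, Fin0 y (fun P => (x Q : ℚ) * (if P = Q.1 then (1 : ℚ) else 0)) :=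
    fun Q => Fin0.smul (fin_single _ _) _
  have hGfin : ∀ Q : QQ y, Fin0 y (G Q) := by
    intro Q
    rw [hG]
    exact Fin0.sub (hGfin2 Q) (hGfin3 Q)
  have hGcls : ∀ Q : QQ y, cls y (cQ c) (G Q) =
      (|(x Q : ℚ)| * s Q) • cls y (cQ c) Hy - (x Q : ℚ) • cQ c Q.1 := by
    intro Q
    rw [hG]
    simp only
    rw [cls_sub (hGfin2 Q) (hGfin3 Q), cls_smul, cls_smul,
      cls_add (hgfin Q) (Fin0.smul hHfin _), hc.principal _ (hg Q), cls_smul, cls_single Q.2,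
      zero_add, one_smul, smul_smul]
  have hGnn : ∀ Q : QQ y, ∀ P, IsPrimeDivisor y P → 0 ≤ G Q P := by
    intro Q P hP
    rw [hG]
    simp only
    have e1 := hgs Q P hP
    have e2 : (0 : ℚ) ≤ if P = Q.1 then (1 : ℚ) else 0 := by split_ifs <;> norm_num
    have e3 := mul_le_mul_of_nonneg_left e1 (abs_nonneg (x Q : ℚ))
    have e4 := mul_le_mul_of_nonneg_right (le_abs_self (x Q : ℚ)) e2
    linarith
  obtain ⟨E, hE⟩ : ∃ E : Place ℂ K → ℚ, E = fun P => ∑ Q ∈ F, G Q P := ⟨_, rfl⟩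
  have hEfin : Fin0 y E := by
    rw [hE]
    exact Fin0.sum F fun Q _ => hGfin Q
  obtain ⟨T, hT⟩ : ∃ T : Place ℂ K → ℚ, T = fun P => ((B : ℚ) * Hy P - dv D P) - E P :=
    ⟨_, rfl⟩
  have hTfin : Fin0 y T := by
    rw [hT]
    exact Fin0.sub (Fin0.sub (Fin0.smul hHfin _) (dv_fin D)) hEfin
  have hTcls : cls y (cQ c) T = 0 := by
    rw [hT, cls_sub (Fin0.sub (Fin0.smul hHfin _) (dv_fin D)) hEfin,
      cls_sub (Fin0.smul hHfin _) (dv_fin D), cls_smul, hE, cls_sum F fun Q _ => hGfin Q]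
    rw [Finset.sum_congr rfl fun Q _ => hGcls Q, Finset.sum_sub_distrib, ← Finset.sum_smul, ← hBq]
    have e1 : cls y (cQ c) (dv D) = ∑ Q ∈ F, (x Q : ℚ) • cQ c Q.1 := by
      funext j
      rw [cls_dv, hx1, Finset.sum_apply, Finset.sum_apply]
      push_cast
      refine Finset.sum_congr rfl fun Q _ => ?_
      rw [Pi.smul_apply, Pi.smul_apply, smul_eq_mul, smul_eq_mul]
      push_cast
      rfl
    rw [e1]
    abel
  obtain ⟨k, hk, f, hf, hfo⟩ := hc.torsion T hTfin hTcls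
  have hbound := hU (φ v) (hps v) B k f hk hf (by
    intro P hP
    rw [hfo P hP, hHF (comap (φ v) P) ((hps v _ _ fun _ => rfl).2 hP), ← dv_map h hps v HF hP, ← hD,
      hT]
    simp only
    have e1 : 0 ≤ E P := by
      rw [hE]
      exact Finset.sum_nonneg fun Q _ => hGnn Q P hP
    have e2 : (0 : ℚ) ≤ (k : ℚ) * E P := mul_nonneg (Nat.cast_nonneg _) e1
    linarith)
  refine hbound.trans (ENNReal.ofReal_le_ofReal ?_)
  rw [mul_assoc]
  exact mul_le_mul_of_nonneg_left hBr hCU.le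

end

theorem mat (hUp : S_Up) (hLow : S_Low) (hAlg : S_Alg) : S_Mat := by
  intro K _ _ N n y hy hn h0 hfg r φ h hps
  obtain ⟨ρ, c, hc⟩ := hfg
  have hc' : FiniteClasses y (cQ c) := hc
  obtain ⟨i, hi⟩ := hy.ne
  obtain ⟨Hy, hHe, hH⟩ := exists_hyp hy hi
  obtain ⟨ρ', M, F, C0, hC0, hM0, hM, h3, h4, h5⟩ := hAlg (QQ y) ρ r (fun P => c P.1)
    (pim h hps) (pim_add h hps) (fun v D hD => kern h hps hc' v D hD)
  obtain ⟨CU, hCU, hUb⟩ := upper hUp hy hn h0 hi hHe hH hc' h hps hC0 h4 h5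
  choose CL hCL hLb using fun P0 : QQ y => lower hLow hy hn h0 hi hHe hH hc' h hps P0
  have hS : 0 ≤ ∑ P ∈ F, CL P := Finset.sum_nonneg fun P _ => hCL P
  refine ⟨ρ', M, CU + C0 * (∑ P ∈ F, CL P) + 1, by positivity, hM0, hM, fun v => ?_, fun v D hD => ?_⟩
  · refine (hUb v).trans (ENNReal.ofReal_le_ofReal ?_)
    refine mul_le_mul_of_nonneg_right ?_
      (Finset.sum_nonneg fun _ _ => Finset.sum_nonneg fun _ _ => abs_nonneg _)
    have : 0 ≤ C0 * (∑ P ∈ F, CL P) := by positivity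
    linarith
  · refine (h3 v).trans ?_
    have e1 : ∑ P ∈ F, ∑ i, |(c (pim h hps v P).1 i : ℝ)| ≤ (∑ P ∈ F, CL P) * D := by
      rw [Finset.sum_mul]
      exact Finset.sum_le_sum fun P _ => hLb P v D hD
    refine (mul_le_mul_of_nonneg_left e1 hC0.le).trans ?_
    rw [← mul_assoc]
    refine mul_le_mul_of_nonneg_right ?_ (Nat.cast_nonneg _)
    linarith

end

end Pool.Agent.N492.PA
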